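import Pool.Agent.Y97.AB.Tau
import Pool.Agent.Y710.AB.One

/-!
# The tensors of algebraic classes are algebraic
-/

set_option linter.unusedSectionVars false
set_option linter.unusedVariables false

open CategoryTheory AlgebraicGeometry Finset

universe u v

namespace Pool.Agent.Y46.AB

open Pool.Agent.H914 Pool.Agent.H914.VarClass Pool.Agent.H914.VarClass.Obj
  Pool.Agent.H914.WeilCohomology Pool.Agent.H281R3.HT Pool.Agent.W552 Pool.Agent.W539.Ker
  Pool.Agent.Y97 Pool.Agent.Y97.FD Pool.Agent.Y97.AB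

variable {k : Type u} [Field k] {𝒱 : VarClass k} {ops : CycleOps 𝒱}
  {W : WeilCohomology.{u, v} ops} {P : Polarized 𝒱} {f : Module.End W.K (W.H P.X)}

/-- The adjoint of the pull-back. -/
theorem tr_map_adj' {X Y : 𝒱.Obj} (φ : X ⟶ Y) (a : W.H Y) (b : W.H X) :
    W.tr X (W.map φ a * b) = W.tr Y (a * W.push φ b) := by
  refine gr_induction (W.isInternal Y) (p := fun a =>
    W.tr X (W.map φ a * b) = W.tr Y (a * W.push φ b)) ?_ ?_ a
  swap
  · intro a a' ha ha'
    rw [map_add, add_mul, add_mul, map_add, map_add, ha, ha']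
  intro i a ha
  refine gr_induction (W.isInternal X) (p := fun b =>
    W.tr X (W.map φ a * b) = W.tr Y (a * W.push φ b)) ?_ ?_ b
  swap
  · intro b b' hb hb'
    rw [map_add, mul_add, mul_add, map_add, map_add, hb, hb']
  intro j b hb
  have h1 := W.push_mem φ hb
  by_cases hl : 0 ≤ (j : ℤ) + 2 * ((Y.dim : ℤ) - X.dim)
  · obtain ⟨l, hl'⟩ := Int.eq_ofNat_of_zero_le hl
    have hl2 : (j : ℤ) + 2 * ((Y.dim : ℤ) - X.dim) = (l : ℤ) := hl'
    rw [hl2, grZ_natCast] at h1
    have e : ((-1 : W.K) ^ (i * l)) = (-1 : W.K) ^ (i * j) := by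
      have h2 : (-1 : W.K) ^ l = (-1 : W.K) ^ j := by
        rw [neg_one_pow_eq_pow_mod_two, neg_one_pow_eq_pow_mod_two (n := j)]
        congr 1
        omega
      rw [mul_comm i l, mul_comm i j, pow_mul, pow_mul, h2]
    rw [W.comm (W.map_mem φ ha) hb, W.comm ha h1, map_smul, map_smul, W.tr_push, e]
  · rw [grZ_of_neg (by omega)] at h1
    have h2 : W.push φ b = 0 := (Submodule.mem_bot _).1 h1
    have h3 := W.tr_push φ b a
    rw [h2, zero_mul, map_zero] at h3
    rw [W.comm (W.map_mem φ ha) hb, map_smul, ← h3, h2, mul_zero, map_zero, smul_zero]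

/-- The adjoint of the pull-back for the forms on the powers. -/
theorem bfs_adj (G : Gp W P.X P.D f) {s t : ℕ} (h : (power ops P t).X ⟶ (power ops P s).X)
    (a : W.H (power ops P s).X) (c : W.H (power ops P t).X) :
    bfs W P f t (W.map h a) c = bfs W P f s a
      (st W (power ops P s).X (power ops P s).D (frm W P f s)
        (W.push h (st W (power ops P t).X (power ops P t).D (frm W P f t) c))) := by
  rw [bfs, bfs, bf_apply, bf_apply, (gp_frm G s).gd.st_st_apply]
  exact tr_map_adj' h a _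

/-- Sums over the basis vectors of degree one. -/
theorem sum_j1' {M : Type*} [AddCommMonoid M] (b : HB W P.X) {n : ℕ}
    (F : (Fin n → Fin b.N) → M)
    (hF : ∀ y, (∃ l, b.dg (y l) ≠ 1) → F y = 0) :
    ∑ y, F y = ∑ x : Fin n → Fin (N1 b), F (fun l => j1 b (x l)) := by
  classical
  symm
  apply Finset.sum_bij_ne_zero (fun x _ _ => fun l => j1 b (x l))
  · intro a _ _
    exact Finset.mem_univ _
  · intro a _ _ a' _ _ h
    exact funext fun l => j1_inj b (congrFun h l)
  · intro y _ hy
    have h1 : ∀ l, b.dg (y l) = 1 := by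
      intro l
      by_contra h
      exact hy (hF y ⟨l, h⟩)
    choose x hx using fun l => j1_surj b (h1 l)
    have h2 : (fun l => j1 b (x l)) = y := funext hx
    exact ⟨x, Finset.mem_univ _, by rw [h2]; exact hy, h2⟩
  · intro a _ _
    rfl

/-- **The tensors of algebraic classes are algebraic.** -/
theorem tau_a1 (G : Gp W P.X P.D f) (b : HB W P.X) {q : ℚ} (hq : q ≠ 0)
    (hq1 : bf W P.X P.D f 1 1 = (q : W.K)) (t : ℕ) {n : ℕ} (φ : Fin n → Fin (t + 1))
    {c : W.H (power ops P t).X} (hc : AS W _ c) :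
    A1 (ops := ops) b n (tau b f t φ c) := by
  have hdet := (Pool.Agent.Y710.AB.G1_cond G b hq hq1).2
  have hqK : (q : W.K) ≠ 0 := by exact_mod_cast hq
  rcases n with _ | s
  · obtain ⟨r, hr⟩ := (gp_frm G t).fr.bf_rat (x := (1 : W.H (power ops P t).X)) AS.one hc
    refine ⟨r, ?_⟩
    refine tau_eq b hdet t φ c fun x => ?_
    rw [mon_zero, act_apply, Fintype.sum_unique]
    have h1 : bfs W P f t 1 c = (r : W.K) := hr
    rw [h1, Finset.univ_eq_empty, Finset.prod_empty, one_mul]
  · set c' : W.H (power ops P s).X := st W (power ops P s).X (power ops P s).D (frm W P f s)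
      (W.push (cmap ops P φ) (st W (power ops P t).X (power ops P t).D (frm W P f t) c)) with hc'
    have hAc' : AS W _ c' :=
      (gp_frm G s).fr.st_AS (AS.push _ ((gp_frm G t).fr.st_AS hc))
    refine ⟨((q ^ (s + 1) : ℚ) : W.K) • c', hAc'.smul _, ?_⟩
    refine tau_eq b hdet t φ c fun x => ?_
    rw [mon_eq, bfs_adj G, ← hc']
    have h1 : bfs W P f s (vec b s fun l => j1 b (x l)) c' =
        ∑ y : Fin (s + 1) → Fin b.N, co b s c' y * ∏ i, Gm b f (j1 b (x i)) (y i) := by
      conv_lhs => rw [← sum_co b s c']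
      rw [map_sum]
      refine Finset.sum_congr rfl fun y _ => ?_
      rw [map_smul, bfs_vec G, smul_eq_mul]
    rw [h1, sum_j1' b, act_apply]
    · refine Finset.sum_congr rfl fun y _ => ?_
      rw [co_smul, Pi.smul_apply, smul_eq_mul]
      have h2 : ∀ i, Gm b f (j1 b (x i)) (j1 b (y i)) = (q : W.K) * G1 b f (x i) (y i) := by
        intro i
        rw [Pool.Agent.Y710.AB.G1_eq b hq1, ← mul_assoc, mul_inv_cancel₀ hqK, one_mul]
      rw [Finset.prod_congr rfl fun i _ => h2 i, Finset.prod_mul_distrib, Finset.prod_const,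
        Finset.card_univ, Fintype.card_fin]
      push_cast
      ring
    · rintro y ⟨l, hl⟩
      rw [Finset.prod_eq_zero (Finset.mem_univ l), mul_zero]
      refine Pool.Agent.Y710.AB.Gm_deg G b ?_
      rw [j1_dg]
      exact Ne.symm hl

end Pool.Agent.Y46.AB
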