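import Pool.Agent.Y97.AB.Tau
import Pool.Agent.Y710.AB.One

/-!
# The tensors of push-forwards
-/

set_option linter.unusedSectionVars false
set_option linter.unusedVariables false

open CategoryTheory AlgebraicGeometry Finset

universe u v

namespace Pool.Agent.Y46.AB

open Pool.Agent.H914 Pool.Agent.H914.VarClass Pool.Agent.H914.VarClass.Obj
  Pool.Agent.H914.WeilCohomology Pool.Agent.H281R3.HT Pool.Agent.W552 Pool.Agent.W539.Ker
  Pool.Agent.Y97 Pool.Agent.Y97.FD Pool.Agent.Y97.AB

variable {k : Type u} [Field k] {𝒱 : VarClass k} {ops : CycleOps 𝒱}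
  {W : WeilCohomology.{u, v} ops} {P : Polarized 𝒱} {f : Module.End W.K (W.H P.X)}

theorem st_one_mem (G : Gp W P.X P.D f) : st W P.X P.D f 1 ∈ W.gr P.X (2 * P.X.dim) := by
  rw [st_apply (W.one_mem P.X)]
  exact Submodule.smul_mem _ _ (G.fr.w_mem (Nat.zero_le _) (W.one_mem P.X))

theorem bf_st_one (G : Gp W P.X P.D f) {j : ℕ} {a : W.H P.X} (ha : a ∈ W.gr P.X j) :
    bf W P.X P.D f (st W P.X P.D f 1) a = W.tr P.X a := by
  have h1 := G.gd.symm (st_one_mem G) ha
  rw [pow_mul, neg_one_sq, one_pow, one_mul] at h1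
  rw [← h1, bf_apply, G.gd.st_st_apply, mul_one]

/-- The push-forward as an adjoint. -/
theorem bfs_push (G : Gp W P.X P.D f) (b : HB W P.X) (t : ℕ) (y : W.H (power ops P t).X)
    (c : W.H (power ops P (t + 1)).X) :
    bfs W P f t y (W.push (snd P.X (power ops P t).X) c) =
      bfs W P f (t + 1) (ext W (X := P.X) (Y := (power ops P t).X) (st W P.X P.D f 1) y) c := by
  have h : (bfs W P f t y) ∘ₗ (W.push (snd P.X (power ops P t).X)) =
      bfs W P f (t + 1)
        (ext W (X := P.X) (Y := (power ops P t).X) (st W P.X P.D f 1) y) := by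
    apply vec_ext b (t + 1)
    intro x
    rw [vec_succ]
    refine Eq.trans ?_ (bfs_ext G t (st W P.X P.D f 1) (b.e (x 0)) y
      (vec b t (fun i => x i.succ))).symm
    rw [bf_st_one G (b.mem (x 0))]
    have h1 : W.push (snd P.X (power ops P t).X)
        (ext W (X := P.X) (Y := (power ops P t).X) (b.e (x 0)) (vec b t (fun i => x i.succ))) =
        W.tr P.X (b.e (x 0)) • vec b t (fun i => x i.succ) := W.push_snd _ _
    have h2 := congrArg (bfs W P f t y) h1
    rw [map_smul, smul_eq_mul] at h2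
    exact h2
  exact congrArg (fun T => T c) h

theorem map_fst_mon (b : HB W P.X) (t : ℕ) {n : ℕ} (x : Fin n → Fin (N1 b)) :
    W.map (fst P.X (power ops P t).X) (mon (ops := ops) b 0 (fun _ : Fin n => 0) x) =
      mon (ops := ops) b (t + 1) (fun _ : Fin n => 0) x := by
  have h0 : ∀ a : Fin (N1 b), W.map (fst P.X (power ops P t).X) (ev (ops := ops) b 0 0 a) =
      ev (ops := ops) b (t + 1) 0 a := by
    intro a
    have h1 : ev (ops := ops) b 0 0 a = e1 b a := W.map_id P.X (e1 b a)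
    rw [h1]
    rfl
  have h2 := map_list_prod (W.map (fst P.X (power ops P t).X))
    (List.ofFn fun l : Fin n => ev (ops := ops) b 0 0 (x l))
  rw [List.map_ofFn] at h2
  have h3 : (⇑(W.map (fst P.X (power ops P t).X)) ∘ fun l : Fin n =>
      ev (ops := ops) b 0 0 (x l)) = fun l => ev (ops := ops) b (t + 1) 0 (x l) :=
    funext fun l => h0 (x l)
  exact h2.trans (congrArg (fun F => (List.ofFn F).prod) h3)

theorem map_snd_mon (b : HB W P.X) (t : ℕ) {n : ℕ} (ψ : Fin n → Fin (t + 1))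
    (x : Fin n → Fin (N1 b)) :
    W.map (snd P.X (power ops P t).X) (mon (ops := ops) b t ψ x) =
      mon (ops := ops) b (t + 1) (Fin.succ ∘ ψ) x := by
  have h0 : ∀ (i : Fin (t + 1)) (a : Fin (N1 b)),
      W.map (snd P.X (power ops P t).X) (ev (ops := ops) b t i a) =
      ev (ops := ops) b (t + 1) i.succ a := by
    intro i a
    exact (W.map_comp (snd P.X (power ops P t).X) (pr ops P t i) (e1 b a)).symm
  have h2 := map_list_prod (W.map (snd P.X (power ops P t).X))
    (List.ofFn fun l : Fin n => ev (ops := ops) b t (ψ l) (x l))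
  rw [List.map_ofFn] at h2
  have h3 : (⇑(W.map (snd P.X (power ops P t).X)) ∘ fun l : Fin n =>
      ev (ops := ops) b t (ψ l) (x l)) = fun l => ev (ops := ops) b (t + 1) ((ψ l).succ) (x l) :=
    funext fun l => h0 (ψ l) (x l)
  exact h2.trans (congrArg (fun F => (List.ofFn F).prod) h3)

theorem map_fst_mm (b : HB W P.X) (t : ℕ) {n : ℕ} (g : (Fin n → Fin (N1 b)) → W.K) :
    W.map (fst P.X (power ops P t).X) (mm (ops := ops) b 0 (fun _ : Fin n => 0) g) =
      mm (ops := ops) b (t + 1) (fun _ : Fin n => 0) g := by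
  have h1 := map_sum (W.map (fst P.X (power ops P t).X))
    (fun x => g x • mon (ops := ops) b 0 (fun _ : Fin n => 0) x) Finset.univ
  refine h1.trans ?_
  rw [mm]
  refine Finset.sum_congr rfl fun x _ => ?_
  refine (map_smul (W.map (fst P.X (power ops P t).X)) (g x) _).trans ?_
  exact congrArg (g x • ·) (map_fst_mon b t x)

theorem map_snd_mm (b : HB W P.X) (t : ℕ) {n : ℕ} (ψ : Fin n → Fin (t + 1))
    (g : (Fin n → Fin (N1 b)) → W.K) :
    W.map (snd P.X (power ops P t).X) (mm (ops := ops) b t ψ g) =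
      mm (ops := ops) b (t + 1) (Fin.succ ∘ ψ) g := by
  have h1 := map_sum (W.map (snd P.X (power ops P t).X))
    (fun x => g x • mon (ops := ops) b t ψ x) Finset.univ
  refine h1.trans ?_
  rw [mm]
  refine Finset.sum_congr rfl fun x _ => ?_
  refine (map_smul (W.map (snd P.X (power ops P t).X)) (g x) _).trans ?_
  exact congrArg (g x • ·) (map_snd_mon b t ψ x)

/-- **The tensors of push-forwards.** -/
theorem tau_push (G : Gp W P.X P.D f) (b : HB W P.X) {q : ℚ} (hq : q ≠ 0)
    (hq1 : bf W P.X P.D f 1 1 = (q : W.K))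
    (hE : ∀ c ∈ W.gr (power ops P 0).X (2 * P.X.dim),
      mm b 0 (fun _ : Fin (2 * P.X.dim) => 0)
        (tau b f 0 (fun _ : Fin (2 * P.X.dim) => 0) c) =
        (bfs W P f 0 1 1 * ((2 * P.X.dim).factorial : W.K)) • c)
    (t : ℕ) {n : ℕ} (ψ : Fin n → Fin (t + 1)) (c : W.H (power ops P (t + 1)).X) :
    ∃ r : ℚ, tau b f t ψ (W.push (snd P.X (power ops P t).X) c) =
      (r : W.K) • pdot (rel finSumFinEquiv.symm (tau b f (t + 1)
        (Fin.append (Fin.succ ∘ ψ) (fun _ : Fin (2 * P.X.dim) => 0)) c))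
        (act (G1 b f).transpose
          (tau b f 0 (fun _ : Fin (2 * P.X.dim) => 0) (st W P.X P.D f 1))) := by
  have hdet := (Pool.Agent.Y710.AB.G1_cond G b hq hq1).2
  have hqK : (q : W.K) ≠ 0 := by exact_mod_cast hq
  set p : (Fin (2 * P.X.dim) → Fin (N1 b)) → W.K :=
    tau (ops := ops) b f 0 (fun _ : Fin (2 * P.X.dim) => 0) (st W P.X P.D f 1) with hp
  set κ : W.K := (q : W.K) * ((2 * P.X.dim).factorial : W.K) with hκ
  have hκ0 : κ ≠ 0 := mul_ne_zero hqK (by exact_mod_cast Nat.factorial_ne_zero _)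
  have h1 : mm (ops := ops) b 0 (fun _ : Fin (2 * P.X.dim) => 0) p =
      κ • (st W P.X P.D f 1 : W.H (power ops P 0).X) := by
    have h2 := hE (st W P.X P.D f 1) (st_one_mem G)
    have h3 : bfs W P f 0 1 1 = (q : W.K) := hq1
    rw [h3] at h2
    exact h2
  -- the external product
  have h2 : ∀ g : (Fin n → Fin (N1 b)) → W.K,
      κ • ext W (X := P.X) (Y := (power ops P t).X) (st W P.X P.D f 1)
        (mm (ops := ops) b t ψ g) =
      mm (ops := ops) b (t + 1)
        (Fin.append (Fin.succ ∘ ψ) (fun _ : Fin (2 * P.X.dim) => 0))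
        (rel finSumFinEquiv (tmul g p)) := by
    intro g
    rw [← mm_mul, ← map_fst_mm, ← map_snd_mm, h1]
    have h3 : ext W (X := P.X) (Y := (power ops P t).X) (st W P.X P.D f 1)
        (mm (ops := ops) b t ψ g) =
        W.map (snd P.X (power ops P t).X) (mm (ops := ops) b t ψ g) *
          W.map (fst P.X (power ops P t).X) (st W P.X P.D f 1) :=
      W.even_comm (W.map_mem (fst P.X (power ops P t).X) (st_one_mem G)) _
    rw [h3]
    have h4 : W.map (fst P.X (power ops P t).X)
        (κ • (st W P.X P.D f 1 : W.H (power ops P 0).X)) =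
        κ • W.map (fst P.X (power ops P t).X) (st W P.X P.D f 1) :=
      map_smul (W.map (fst P.X (power ops P t).X)) κ _
    rw [h4]
    exact (mul_smul_comm κ _ _).symm
  refine ⟨(q * ((2 * P.X.dim).factorial : ℚ))⁻¹, ?_⟩
  have h3 : (((q * ((2 * P.X.dim).factorial : ℚ))⁻¹ : ℚ) : W.K) = κ⁻¹ := by
    rw [hκ]; push_cast; rfl
  rw [h3]
  have h5 : ∀ z : W.H (power ops P (t + 1)).X,
      bfs W P f (t + 1) z c = κ⁻¹ * bfs W P f (t + 1) (κ • z) c := by
    intro z
    rw [map_smul, LinearMap.smul_apply, smul_eq_mul, ← mul_assoc, inv_mul_cancel₀ hκ0, one_mul]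
  refine dG_ext hdet fun g => ?_
  rw [dG_tau b hdet, bfs_push G b, dG_smul, ← dG_ctr, ← dG_rel, dG_tau b hdet, ← h2 g]
  exact h5 _

end Pool.Agent.Y46.AB
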